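import Pool.Agent.H37.KR.P3

/-!
# Part P5: the obstruction of a homology manifold is a sum of products of cocycles (helper95)
-/

set_option autoImplicit false

namespace Pool.Agent.H95.KR

open Finset Pool.Agent.W555.KS Pool.Agent.Y131.KS Pool.Agent.H37.KR

variable {N : ℕ}

/-- symmetric sums with zero diagonal vanish -/
theorem symsum {ι : Type*} [Fintype ι] [DecidableEq ι] (F : ι → ι → ZMod 2)
    (hs : ∀ i j, F i j = F j i) (h0 : ∀ i, F i i = 0) : ∑ i, ∑ j, F i j = 0 := by
  rw [← Finset.sum_product' univ univ F]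
  refine Finset.sum_involution (fun x _ => (x.2, x.1)) ?_ ?_ ?_ ?_
  · intro x _
    simp only
    rw [hs x.2 x.1]
    exact z2 _
  · intro x _ hne heq
    apply hne
    have h1 : x.2 = x.1 := congrArg Prod.fst heq
    rw [h1]
    exact h0 _
  · intro x _
    exact mem_product.2 ⟨mem_univ _, mem_univ _⟩
  · intro x _
    rfl

/-- the value of a product of cochains -/
def Pp (β α : Finset (Fin N) → ZMod 2) (Z : Finset (Fin N) → Finset (Fin N) → ZMod 2) : ZMod 2 :=
  ∑ σ, ∑ τ, β σ * α τ * Z σ τ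

theorem Pp_zero_left (α : Finset (Fin N) → ZMod 2) (Z : Finset (Fin N) → Finset (Fin N) → ZMod 2) :
    Pp (fun _ => 0) α Z = 0 := by
  unfold Pp; simp

theorem Pp_zero_right (β : Finset (Fin N) → ZMod 2) (Z : Finset (Fin N) → Finset (Fin N) → ZMod 2) :
    Pp β (fun _ => 0) Z = 0 := by
  unfold Pp; simp

theorem Pp_comm {Z : Finset (Fin N) → Finset (Fin N) → ZMod 2} (hs : ∀ σ τ, Z σ τ = Z τ σ)
    (β α : Finset (Fin N) → ZMod 2) : Pp β α Z = Pp α β Z := by
  unfold Pp
  rw [sum_comm]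
  refine sum_congr rfl fun σ _ => sum_congr rfl fun τ _ => ?_
  rw [hs τ σ]
  ring

theorem Pp_sum_right {ι : Type*} (t : Finset ι) (a : ι → ZMod 2)
    (γ : ι → Finset (Fin N) → ZMod 2) (β : Finset (Fin N) → ZMod 2)
    (Z : Finset (Fin N) → Finset (Fin N) → ZMod 2) :
    Pp β (fun τ => ∑ j ∈ t, a j * γ j τ) Z = ∑ j ∈ t, a j * Pp β (γ j) Z := by
  unfold Pp
  have h1 : ∀ σ τ, β σ * (∑ j ∈ t, a j * γ j τ) * Z σ τ =
      ∑ j ∈ t, a j * (β σ * γ j τ * Z σ τ) := by
    intro σ τ
    rw [mul_sum, sum_mul]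
    exact sum_congr rfl fun j _ => by ring
  simp_rw [h1, mul_sum]
  rw [sum_congr rfl fun σ _ => sum_comm (s := univ) (t := t), sum_comm]

theorem Pp_sum_left {ι : Type*} (t : Finset ι) (a : ι → ZMod 2)
    (γ : ι → Finset (Fin N) → ZMod 2) (α : Finset (Fin N) → ZMod 2)
    (Z : Finset (Fin N) → Finset (Fin N) → ZMod 2) :
    Pp (fun τ => ∑ j ∈ t, a j * γ j τ) α Z = ∑ j ∈ t, a j * Pp (γ j) α Z := by
  unfold Pp
  have h1 : ∀ σ τ, (∑ j ∈ t, a j * γ j σ) * α τ * Z σ τ =
      ∑ j ∈ t, a j * (γ j σ * α τ * Z σ τ) := by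
    intro σ τ
    rw [sum_mul, sum_mul]
    exact sum_congr rfl fun j _ => by ring
  simp_rw [h1, mul_sum]
  rw [sum_congr rfl fun σ _ => sum_comm (s := univ) (t := t), sum_comm]

theorem Pp_self {K : Finset (Finset (Fin N))} {D : ℕ} (hD : 0 < D)
    {Z : Finset (Fin N) → Finset (Fin N) → ZMod 2} (hZ : Ch2 K D Z) (hs : ∀ σ τ, Z σ τ = Z τ σ)
    (α : Finset (Fin N) → ZMod 2) : Pp α α Z = 0 := by
  classical
  unfold Pp
  apply symsum (fun σ τ => α σ * α τ * Z σ τ)
  · intro σ τ
    rw [hs σ τ]; ring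
  · intro σ
    have : Z σ σ = 0 := by
      by_contra hne
      obtain ⟨-, -, h3, h4⟩ := hZ _ _ hne
      rw [disjoint_self] at h3
      have h5 : σ = ∅ := h3
      rw [h5, card_empty] at h4
      omega
    rw [this, mul_zero]

/-- linear combinations of cocycles -/
theorem coc_sum {ι : Type*} {K : Finset (Finset (Fin N))} {s : ℕ} (t : Finset ι) (a : ι → ZMod 2)
    (γ : ι → Finset (Fin N) → ZMod 2) (h : ∀ j, Coc K s (γ j)) :
    Coc K s (fun τ => ∑ j ∈ t, a j * γ j τ) := by
  refine ⟨fun σ hσ => sum_eq_zero fun j _ => by rw [(h j).1 σ hσ, mul_zero], fun ρ hρ hc => ?_⟩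
  rw [sum_comm]
  refine sum_eq_zero fun j _ => ?_
  rw [← mul_sum, (h j).2 ρ hρ hc, mul_zero]

theorem coc_zero (K : Finset (Finset (Fin N))) (s : ℕ) : Coc K s (fun _ => 0) :=
  ⟨fun _ _ => rfl, fun _ _ _ => sum_eq_zero fun _ _ => rfl⟩

theorem prc_add (α x y : Finset (Fin N) → ZMod 2) : prc α (x + y) = prc α x + prc α y := by
  unfold prc
  rw [← sum_add_distrib]
  exact sum_congr rfl fun σ _ => by rw [Pi.add_apply]; ring

theorem prc_sum {ι : Type*} (t : Finset ι) (α : Finset (Fin N) → ZMod 2) (a : ι → ZMod 2)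
    (c : ι → Finset (Fin N) → ZMod 2) :
    prc α (∑ i ∈ t, a i • c i) = ∑ i ∈ t, a i * prc α (c i) := by
  unfold prc
  have h1 : ∀ σ, α σ * (∑ i ∈ t, a i • c i) σ = ∑ i ∈ t, a i * (α σ * c i σ) := by
    intro σ
    rw [Finset.sum_apply, mul_sum]
    exact sum_congr rfl fun i _ => by rw [Pi.smul_apply, smul_eq_mul]; ring
  simp_rw [h1, mul_sum]
  rw [sum_comm]

/-- expansion of a cocycle in the dual basis -/
theorem prc_expand {K : Finset (Finset (Fin N))} {s b : ℕ}
    {c α : Fin b → Finset (Fin N) → ZMod 2} (hc : ∀ i, Sp K s (c i) ∧ ∀ ρ, bdr (c i) ρ = 0)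
    (hd : ∀ i j, prc (α i) (c j) = if i = j then 1 else 0)
    (hb : ∀ x, Sp K s x → (∀ ρ, bdr x ρ = 0) → (∀ i, prc (α i) x = 0) →
      ∃ b, Sp K (s + 1) b ∧ ∀ ρ, x ρ = bdr b ρ)
    {β x : Finset (Fin N) → ZMod 2} (hβ : Coc K s β) (hx : Sp K s x) (hxc : ∀ ρ, bdr x ρ = 0) :
    prc β x = ∑ i, prc (α i) x * prc β (c i) := by
  classical
  have hmem : x + ∑ i, prc (α i) x • c i ∈ cycS K s := by
    apply Submodule.add_mem
    · exact ⟨hx, hxc⟩
    · exact Submodule.sum_mem _ fun i _ => Submodule.smul_mem _ _ (hc i)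
  obtain ⟨b', hb1, hb2⟩ := hb _ hmem.1 hmem.2 (by
    intro j
    rw [prc_add, prc_sum, Finset.sum_eq_single j]
    · rw [hd, if_pos rfl, mul_one]
      exact z2 _
    · intro i _ hi
      rw [hd, if_neg (Ne.symm hi), mul_zero]
    · intro h
      exact absurd (mem_univ j) h)
  have h1 : x + ∑ i, prc (α i) x • c i = bdr b' := funext hb2
  have h2 : prc β (x + ∑ i, prc (α i) x • c i) = 0 := by
    rw [h1]
    exact prc_bdr hβ fun τ hτ => (hb1 τ hτ).1
  rw [prc_add, prc_sum] at h2
  have h3 : ∀ a b : ZMod 2, a + b = 0 → a = b := by decide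
  exact h3 _ _ h2

/-- integration of a cycle of the deleted join over a cocycle in the second variable -/
theorem slice {K : Finset (Finset (Fin N))} {D p s : ℕ} (hps : p + s = D)
    {Z : Finset (Fin N) → Finset (Fin N) → ZMod 2} (hZ : Ch2 K D Z) (hcy : ∀ ρ τ, dd Z ρ τ = 0)
    {α : Finset (Fin N) → ZMod 2} (hα : Coc K s α) :
    Sp K p (fun σ => ∑ τ, α τ * Z σ τ) ∧ ∀ ρ, bdr (fun σ => ∑ τ, α τ * Z σ τ) ρ = 0 := by
  constructor
  · intro σ h
    obtain ⟨τ, -, hτ⟩ := exists_ne_zero_of_sum_ne_zero h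
    have h1 : α τ ≠ 0 := left_ne_zero_of_mul hτ
    have h2 : Z σ τ ≠ 0 := right_ne_zero_of_mul hτ
    obtain ⟨a, -, -, e⟩ := hZ _ _ h2
    have h3 : τ.card = s := by
      by_contra h4
      exact h1 (hα.1 τ h4)
    exact ⟨a, by omega⟩
  · intro ρ
    have h1 : bdr (fun σ => ∑ τ, α τ * Z σ τ) ρ = ∑ τ, α τ * bdr (fun σ => Z σ τ) ρ := by
      unfold bdr
      rw [sum_comm]
      exact sum_congr rfl fun τ _ => by rw [mul_sum]
    have h2 : ∀ τ, bdr (fun σ => Z σ τ) ρ = bdr (Z ρ) τ := by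
      intro τ
      have h3 := hcy ρ τ
      rw [dd_split hZ] at h3
      have h4 : ∀ a b : ZMod 2, a + b = 0 → a = b := by decide
      exact h4 _ _ h3
    rw [h1]
    simp_rw [h2]
    exact prc_bdr hα fun τ h => (hZ _ _ h).2.1

theorem Pp_eq_prc (β α : Finset (Fin N) → ZMod 2) (Z : Finset (Fin N) → Finset (Fin N) → ZMod 2) :
    Pp β α Z = prc β (fun σ => ∑ τ, α τ * Z σ τ) := by
  unfold Pp prc
  refine sum_congr rfl fun σ _ => ?_
  rw [mul_sum]
  exact sum_congr rfl fun τ _ => by ring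

/-- symmetric cycles of the deleted join -/
def VV (K : Finset (Finset (Fin N))) (D : ℕ) :
    Submodule (ZMod 2) (Finset (Fin N) → Finset (Fin N) → ZMod 2) where
  carrier := {Z | Ch2 K D Z ∧ (∀ σ τ, Z σ τ = Z τ σ) ∧ ∀ ρ τ, dd Z ρ τ = 0}
  add_mem' := by
    rintro a b ⟨h1, h2, h3⟩ ⟨h4, h5, h6⟩
    refine ⟨ch2_add h1 h4, fun σ τ => ?_, fun ρ τ => ?_⟩
    · rw [Pi.add_apply, Pi.add_apply, Pi.add_apply, Pi.add_apply, h2, h5]
    · have := dd_add a b ρ τ
      rw [h3, h6, add_zero] at this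
      exact this
  zero_mem' := by
    refine ⟨fun σ τ h => absurd rfl h, fun _ _ => rfl, fun ρ τ => ?_⟩
    unfold dd
    simp
  smul_mem' := by
    rintro c a ⟨h1, h2, h3⟩
    rcases (show c = 0 ∨ c = 1 by revert c; decide) with rfl | rfl
    · rw [zero_smul]
      refine ⟨fun σ τ h => absurd rfl h, fun _ _ => rfl, fun ρ τ => ?_⟩
      unfold dd
      simp
    · rw [one_smul]
      exact ⟨h1, h2, h3⟩

/-- the evaluation as a linear map -/
def evL (D : ℕ) : (Finset (Fin N) → Finset (Fin N) → ZMod 2) →ₗ[ZMod 2] ZMod 2 where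
  toFun := ev D
  map_add' := fun a b => ev_add D a b
  map_smul' := by
    intro c a
    unfold ev
    rw [RingHom.id_apply, smul_eq_mul, mul_sum]
    rfl

/-- the products as linear maps -/
def PpL (β α : Finset (Fin N) → ZMod 2) :
    (Finset (Fin N) → Finset (Fin N) → ZMod 2) →ₗ[ZMod 2] ZMod 2 where
  toFun := Pp β α
  map_add' := by
    intro a b
    unfold Pp
    rw [← sum_add_distrib]
    refine sum_congr rfl fun σ _ => ?_
    rw [← sum_add_distrib]
    refine sum_congr rfl fun τ _ => ?_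
    rw [Pi.add_apply, Pi.add_apply]
    ring
  map_smul' := by
    intro c a
    unfold Pp
    rw [RingHom.id_apply, smul_eq_mul, mul_sum]
    refine sum_congr rfl fun σ _ => ?_
    rw [mul_sum]
    refine sum_congr rfl fun τ _ => ?_
    rw [Pi.smul_apply, Pi.smul_apply, smul_eq_mul]
    ring

/-- sums over a longer interval -/
theorem sum_castLE {b B : ℕ} (h : b ≤ B) (g : Fin B → ZMod 2) (hg : ∀ i : Fin B, b ≤ (i : ℕ) → g i = 0) :
    ∑ i, g i = ∑ i : Fin b, g (Fin.castLE h i) := by
  symm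
  have h1 : ∑ i : Fin b, g (Fin.castLE h i) = ∑ i ∈ univ.map (Fin.castLEEmb h), g i := by
    rw [sum_map]
    rfl
  rw [h1]
  refine sum_subset (subset_univ _) fun i _ hi => hg i ?_
  by_contra hlt
  rw [not_le] at hlt
  apply hi
  rw [mem_map]
  exact ⟨⟨i, hlt⟩, mem_univ _, by ext; rfl⟩

/-- on the symmetric cycles the evaluation is a combination of products -/
theorem ev_comb (h1 : StP1) (h2 : StP2) (h3 : StP3) {K : Finset (Finset (Fin N))} {d : ℕ}
    (hK : HMan K d) (hV : VK2 K (d + 2)) (A : ℕ → ℕ → Finset (Fin N) → ZMod 2) (B : ℕ)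
    (hA : ∀ s i, Coc K s (A s i))
    (hsp : ∀ s, s ≤ d + 1 → ∀ β, Coc K s β → ∃ a : Fin B → ZMod 2, ∀ x, Sp K s x →
      (∀ ρ, bdr x ρ = 0) → prc β x = ∑ i : Fin B, a i * prc (A s i) x) :
    ∃ C : Fin (d + 2) × Fin B × Fin B → ZMod 2, ∀ Z ∈ VV K (d + 1),
      ev (d + 1) Z = ∑ x, C x * (if d + 1 ≤ 2 * (x.1 : ℕ) then
        Pp (A x.1 x.2.1) (A (d + 1 - x.1) x.2.2) Z else 0) := by
  classical
  let L : Fin (d + 2) × Fin B × Fin B → (VV K (d + 1) →ₗ[ZMod 2] ZMod 2) := fun x =>
    (if d + 1 ≤ 2 * (x.1 : ℕ) then PpL (A x.1 x.2.1) (A (d + 1 - x.1) x.2.2) else 0) ∘ₗ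
      (VV K (d + 1)).subtype
  have hspan : (evL (d + 1)) ∘ₗ (VV K (d + 1)).subtype ∈ Submodule.span (ZMod 2) (Set.range L) := by
    apply mem_span_of_iInf_ker_le_ker
    intro Z hZ
    rw [Submodule.mem_iInf] at hZ
    obtain ⟨Z, hZV⟩ := Z
    obtain ⟨hZc, hZs, hZd⟩ := hZV
    have hL : ∀ p : ℕ, p ≤ d + 1 → ∀ i j : Fin B, Pp (A p i) (A (d + 1 - p) j) Z = 0 := by
      have hL0 : ∀ p : ℕ, p ≤ d + 1 → d + 1 ≤ 2 * p → ∀ i j : Fin B,
          Pp (A p i) (A (d + 1 - p) j) Z = 0 := by
        intro p hp hp2 i j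
        have := hZ (⟨p, by omega⟩, i, j)
        rw [LinearMap.mem_ker] at this
        simp only [L] at this
        rw [if_pos hp2] at this
        exact this
      intro p hp i j
      rcases Nat.lt_or_ge (2 * p) (d + 1) with h | h
      · have := hL0 (d + 1 - p) (by omega) (by omega) j i
        rw [show d + 1 - (d + 1 - p) = p by omega] at this
        rw [Pp_comm hZs]
        exact this
      · exact hL0 p hp h i j
    have hprod : ∀ p s, p + s = d + 1 → ∀ β α, Coc K p β → Coc K s α → Pp β α Z = 0 := by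
      intro p s hps β α hβ hα
      obtain ⟨a, ha⟩ := hsp p (by omega) β hβ
      obtain ⟨a', ha'⟩ := hsp s (by omega) α hα
      have e1 : ∀ γ, Coc K s γ → Pp β γ Z = ∑ i : Fin B, a i * Pp (A p i) γ Z := by
        intro γ hγ
        have hx := slice hps hZc hZd hγ
        rw [Pp_eq_prc, ha _ hx.1 hx.2]
        exact sum_congr rfl fun i _ => by rw [Pp_eq_prc]
      have e2 : ∀ i : Fin B, Pp (A p i) α Z = 0 := by
        intro i
        rw [Pp_comm hZs]
        have hx := slice (p := s) (s := p) (by omega) hZc hZd (hA p i)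
        rw [Pp_eq_prc, ha' _ hx.1 hx.2]
        refine sum_eq_zero fun j _ => ?_
        rw [← Pp_eq_prc, Pp_comm hZs]
        have := hL p (by omega) i j
        rw [show d + 1 - p = s by omega] at this
        rw [this, mul_zero]
      rw [e1 α hα]
      exact sum_eq_zero fun i _ => by rw [e2 i, mul_zero]
    obtain ⟨Y, hY, hYd⟩ := h3 h1 h2 N K d hK (d + 1) (by omega) Z hZc hZd
      (fun p s hps _ β α hβ hα => hprod p s hps β α hβ hα)
    rw [LinearMap.mem_ker]
    change ev (d + 1) Z = 0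
    have h4 : ev (d + 1) Z = ev (d + 1) (dd Y) := by
      unfold ev
      exact sum_congr rfl fun U _ => (hYd _ _).symm
    rw [h4, ev_dd]
    have h5 : ∀ ρ τ, dd (fun σ τ => Y σ τ + Y τ σ) ρ τ = 0 := by
      intro ρ τ
      have h6 : dd (fun σ τ => Y σ τ + Y τ σ) ρ τ = dd Y ρ τ + dd Y τ ρ := by
        unfold dd
        rw [union_comm τ ρ, ← sum_add_distrib]
        refine sum_congr rfl fun v _ => ?_
        ring
      rw [h6, hYd, hYd, hZs τ ρ]
      exact z2 _
    refine hV (fun σ τ => Y σ τ + Y τ σ) (fun σ τ => add_comm _ _) (fun σ τ h => ?_)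
      (fun ρ τ _ _ => h5 ρ τ)
    have h6 : Y σ τ ≠ 0 ∨ Y τ σ ≠ 0 := by
      by_contra hcon
      push Not at hcon
      exact h (by rw [hcon.1, hcon.2, add_zero])
    rcases h6 with h6 | h6
    · exact ⟨(hY _ _ h6).1, (hY _ _ h6).2.1⟩
    · exact ⟨(hY _ _ h6).2.1, (hY _ _ h6).1⟩
  rw [Submodule.mem_span_range_iff_exists_fun] at hspan
  obtain ⟨C, hC⟩ := hspan
  refine ⟨C, fun Z hZ => ?_⟩
  have := congrArg (fun f : (VV K (d + 1) →ₗ[ZMod 2] ZMod 2) => f ⟨Z, hZ⟩) hC
  simp only [LinearMap.sum_apply, LinearMap.smul_apply, smul_eq_mul] at this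
  rw [show ev (d + 1) Z = ((evL (d + 1)) ∘ₗ (VV K (d + 1)).subtype) ⟨Z, hZ⟩ from rfl, ← this]
  refine sum_congr rfl fun x _ => ?_
  congr 1
  simp only [L]
  split_ifs <;> rfl

/-- the middle degree: the form is a sum of products of two linear forms -/
theorem middle {b m : ℕ} (P Q : Fin b → Fin b → ZMod 2) (X Y : Fin m → Fin b → ZMod 2)
    (hs : ∀ i j, P i j = P j i) (h0 : ∀ i, P i i = 0)
    (hQ : ∀ i j, Q i j + Q j i = ∑ t, (X t i * Y t j + Y t i * X t j)) :
    ∑ i, ∑ j, Q i j * P i j = ∑ t, ∑ i, X t i * ∑ j, Y t j * P i j := by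
  have e1 : ∑ t, ∑ i, X t i * ∑ j, Y t j * P i j = ∑ i, ∑ j, (∑ t, X t i * Y t j) * P i j := by
    rw [sum_comm]
    refine sum_congr rfl fun i _ => ?_
    simp_rw [mul_sum, sum_mul]
    rw [sum_comm]
    refine sum_congr rfl fun j _ => sum_congr rfl fun t _ => ?_
    ring
  have e2 : ∑ i, ∑ j, (Q i j + ∑ t, X t i * Y t j) * P i j = 0 := by
    apply symsum (fun i j => (Q i j + ∑ t, X t i * Y t j) * P i j)
    · intro i j
      rw [hs i j]
      congr 1
      have h1 := hQ i j
      rw [sum_add_distrib] at h1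
      have h2 : ∑ t, Y t i * X t j = ∑ t, X t j * Y t i := sum_congr rfl fun t _ => mul_comm _ _
      rw [h2] at h1
      have h3 : ∀ a b c e : ZMod 2, a + b = c + e → a + c = b + e := by decide
      exact h3 _ _ _ _ h1
    · intro i
      rw [h0 i, mul_zero]
  have e3 : ∑ i, ∑ j, (Q i j + ∑ t, X t i * Y t j) * P i j =
      ∑ i, ∑ j, Q i j * P i j + ∑ i, ∑ j, (∑ t, X t i * Y t j) * P i j := by
    rw [← sum_add_distrib]
    refine sum_congr rfl fun i _ => ?_
    rw [← sum_add_distrib]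
    refine sum_congr rfl fun j _ => ?_
    ring
  rw [e3] at e2
  rw [e1]
  have h4 : ∀ a b : ZMod 2, a + b = 0 → a = b := by decide
  exact h4 _ _ e2

theorem card_comp {T : Type*} [Fintype T] {m : ℕ} (e : Fin m ≃ T) (p : T → Prop)
    [DecidablePred p] : (univ.filter (fun j => p (e j))).card = (univ.filter p).card := by
  rw [← Fintype.card_subtype, ← Fintype.card_subtype]
  exact Fintype.card_congr (e.subtypeEquiv (fun _ => Iff.rfl))

/-- the truncation of a symmetric cycle -/
theorem trunc_mem {K : Finset (Finset (Fin N))} {D : ℕ}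
    {Z : Finset (Fin N) → Finset (Fin N) → ZMod 2}
    (hs : ∀ σ τ, Z σ τ = Z τ σ) (hsupp : ∀ σ τ, Z σ τ ≠ 0 → σ ∈ K ∧ τ ∈ K)
    (hcy : ∀ ρ τ : Finset (Fin N), Disjoint ρ τ → ρ.card + τ.card + 1 = D →
      ∑ v ∈ (ρ ∪ τ)ᶜ, (Z (insert v ρ) τ + Z ρ (insert v τ)) = 0) :
    (fun σ τ => if Disjoint σ τ ∧ σ.card + τ.card = D then Z σ τ else 0) ∈ VV K D := by
  refine ⟨?_, ?_, ?_⟩
  · intro σ τ h
    beta_reduce at h
    split_ifs at h with h1
    · obtain ⟨a, b⟩ := hsupp _ _ h
      exact ⟨a, b, h1.1, h1.2⟩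
    · exact absurd rfl h
  · intro σ τ
    beta_reduce
    by_cases hc : Disjoint σ τ ∧ σ.card + τ.card = D
    · rw [if_pos hc, if_pos ⟨hc.1.symm, by omega⟩, hs]
    · rw [if_neg hc, if_neg (fun h => hc ⟨h.1.symm, by omega⟩)]
  · intro ρ τ
    by_cases hc : Disjoint ρ τ ∧ ρ.card + τ.card + 1 = D
    · rw [← hcy ρ τ hc.1 hc.2]
      unfold dd
      refine sum_congr rfl fun v hv => ?_
      rw [mem_compl, mem_union, not_or] at hv
      beta_reduce
      rw [if_pos ⟨disjoint_insert_left.2 ⟨hv.2, hc.1⟩, by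
          rw [card_insert_of_notMem hv.1]
          omega⟩,
        if_pos ⟨disjoint_insert_right.2 ⟨hv.1, hc.1⟩, by
          rw [card_insert_of_notMem hv.2]
          omega⟩]
    · by_contra hne
      obtain ⟨v, a, b, c | c⟩ := dd_ne hne
      · split_ifs at c with h1
        · apply hc
          rw [disjoint_insert_left, card_insert_of_notMem a] at h1
          exact ⟨h1.1.2, by omega⟩
        · exact c rfl
      · split_ifs at c with h1
        · apply hc
          rw [disjoint_insert_right, card_insert_of_notMem b] at h1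
          exact ⟨h1.1.2, by omega⟩
        · exact c rfl

/-- PART P5. -/
theorem stP5 : StP5 := by
  classical
  intro hSym h1 h2 h3 N K d hK hV
  choose c α hc hα hd hb using fun s => h1 N K s hK.cx
  set B := ∑ s ∈ range (d + 2), betti K s with hBdef
  have hB : ∀ s, s ≤ d + 1 → betti K s ≤ B := fun s hs =>
    single_le_sum (f := fun s => betti K s) (fun _ _ => Nat.zero_le _) (mem_range.2 (by omega))
  obtain ⟨A, hA1, hA2⟩ : ∃ A : ℕ → ℕ → Finset (Fin N) → ZMod 2,
      (∀ s (i : Fin (betti K s)), A s i = α s i) ∧ ∀ s i, betti K s ≤ i → A s i = fun _ => 0 := by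
    refine ⟨fun s i => if h : i < betti K s then α s ⟨i, h⟩ else fun _ => 0, ?_, ?_⟩
    · intro s i
      simp only
      rw [dif_pos i.2]
    · intro s i hi
      simp only
      rw [dif_neg (by omega)]
  have hA : ∀ s i, Coc K s (A s i) := by
    intro s i
    by_cases hi : i < betti K s
    · have := hA1 s ⟨i, hi⟩
      simp only at this
      rw [this]
      exact hα s _
    · rw [hA2 s i (by omega)]
      exact coc_zero K s
  obtain ⟨C, hC⟩ := ev_comb h1 h2 h3 hK hV A B hA (by
    intro s hs β hβ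
    refine ⟨fun i => if h : (i : ℕ) < betti K s then prc β (c s ⟨i, h⟩) else 0,
      fun x hx hxc => ?_⟩
    rw [prc_expand (hc s) (hd s) (hb s) hβ hx hxc, sum_castLE (hB s hs)]
    · refine sum_congr rfl fun i _ => ?_
      have hi : ((Fin.castLE (hB s hs) i : Fin B) : ℕ) < betti K s := i.2
      beta_reduce
      rw [dif_pos hi]
      have h5 : A s ((Fin.castLE (hB s hs) i : Fin B) : ℕ) = α s i := hA1 s i
      rw [h5]
      exact mul_comm _ _
    · intro i hi
      beta_reduce
      rw [dif_neg (by omega), zero_mul])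
  obtain ⟨q, hq⟩ : ∃ q, q = (d + 1) / 2 := ⟨_, rfl⟩
  have hqd : q ≤ d + 1 := by omega
  have hqB : betti K q ≤ B := hB q hqd
  let qq : Fin (d + 2) := ⟨q, by omega⟩
  obtain ⟨m', X, Y, hm1, hm2, hm3⟩ : ∃ (m' : ℕ) (X Y : Fin m' → Fin (betti K q) → ZMod 2),
      2 * m' ≤ betti K q ∧ (d + 1 ≠ 2 * q → m' = 0) ∧ (d + 1 = 2 * q → ∀ i j,
        C (qq, Fin.castLE hqB i, Fin.castLE hqB j) + C (qq, Fin.castLE hqB j, Fin.castLE hqB i) =
          ∑ t, (X t i * Y t j + Y t i * X t j)) := by
    by_cases h : d + 1 = 2 * q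
    · obtain ⟨m', X, Y, e1, e2⟩ := hSym (betti K q) (fun i j =>
        C (qq, Fin.castLE hqB i, Fin.castLE hqB j) + C (qq, Fin.castLE hqB j, Fin.castLE hqB i))
        (fun i => z2 _) (fun i j => add_comm _ _)
      exact ⟨m', X, Y, e1, fun h' => absurd h h', fun _ => e2⟩
    · exact ⟨0, Fin.elim0, Fin.elim0, by omega, fun _ => rfl, fun h' => absurd h' h⟩
  have hm2' : ∀ _ : Fin m', d + 1 = 2 * q := by
    intro t
    by_contra h
    have := hm2 h
    have := t.2
    omega
  let T : Type := {x : Fin (d + 2) × Fin B // d + 1 < 2 * (x.1 : ℕ) ∧ (x.2 : ℕ) < betti K x.1} ⊕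
    Fin m'
  let bT : T → ℕ := Sum.elim (fun x => (x.1.1 : ℕ)) (fun _ => q)
  let βT : T → Finset (Fin N) → ZMod 2 := Sum.elim (fun x => A x.1.1 x.1.2)
    (fun t => fun σ => ∑ i : Fin (betti K q), X t i * A q i σ)
  let αT : T → Finset (Fin N) → ZMod 2 := Sum.elim
    (fun x => fun τ => ∑ j : Fin B, C (x.1.1, x.1.2, j) * A (d + 1 - x.1.1) j τ)
    (fun t => fun τ => ∑ i : Fin (betti K q), Y t i * A q i τ)
  let e : Fin (Fintype.card T) ≃ T := (Fintype.equivFin T).symm
  refine ⟨Fintype.card T, fun j => bT (e j), fun j => βT (e j), fun j => αT (e j),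
    ⟨?_, ?_, ?_, ?_⟩, ?_⟩
  · intro j
    have key : ∀ t : T, d + 1 ≤ 2 * bT t ∧ bT t ≤ d + 1 := by
      rintro (x | t)
      · have := x.1.1.2
        exact ⟨x.2.1.le, by
          change (x.1.1 : ℕ) ≤ d + 1
          omega⟩
      · exact ⟨(hm2' t).le, hqd⟩
    exact key _
  · intro j
    have key : ∀ t : T, Coc K (bT t) (βT t) := by
      rintro (x | t)
      · exact hA _ _
      · exact coc_sum univ (X t) (fun i : Fin (betti K q) => A q i) fun i => hA _ _
    exact key _
  · intro j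
    have key : ∀ t : T, Coc K (d + 1 - bT t) (αT t) := by
      rintro (x | t)
      · exact coc_sum univ (fun j : Fin B => C (x.1.1, x.1.2, j))
          (fun j : Fin B => A (d + 1 - x.1.1) j) fun i => hA _ _
      · have h := coc_sum univ (Y t) (fun i : Fin (betti K q) => A q i) (fun i => hA q i)
        have h' := hm2' t
        have h'' : d + 1 - bT (Sum.inr t) = q := by
          change d + 1 - q = q
          omega
        rw [h'']
        exact h
    exact key _
  · intro Z hs hsupp hcy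
    have hmem := trunc_mem hs hsupp hcy
    set Z' : Finset (Fin N) → Finset (Fin N) → ZMod 2 :=
      fun σ τ => if Disjoint σ τ ∧ σ.card + τ.card = d + 1 then Z σ τ else 0 with hZ'
    have e1 : ∑ U ∈ powersetCard (d + 1) univ, Z (evenPart U) (oddPart U) = ev (d + 1) Z' := by
      unfold ev
      refine sum_congr rfl fun U hU => ?_
      rw [hZ']
      beta_reduce
      rw [if_pos ⟨disj_parts U, by rw [card_parts]; exact (mem_powersetCard.1 hU).2⟩]
    have e2 : pr2 (d + 1) (fun σ τ => ∑ j, βT (e j) σ * αT (e j) τ) Z =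
        ∑ t : T, Pp (βT t) (αT t) Z' := by
      rw [← Equiv.sum_comp e]
      unfold pr2 Pp
      rw [sum_comm (s := univ) (t := univ) (f := fun j σ => ∑ τ, βT (e j) σ * αT (e j) τ * Z' σ τ)]
      refine sum_congr rfl fun σ _ => ?_
      rw [sum_comm (s := univ) (t := univ) (f := fun j τ => βT (e j) σ * αT (e j) τ * Z' σ τ)]
      refine sum_congr rfl fun τ _ => ?_
      rw [← sum_mul, hZ']
      beta_reduce
      rw [mul_ite, mul_zero]
    rw [e1, e2, hC Z' hmem, Fintype.sum_prod_type]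
    -- the three kinds of terms
    have hsT : ∑ t : T, Pp (βT t) (αT t) Z' =
        (∑ x : {x : Fin (d + 2) × Fin B // d + 1 < 2 * (x.1 : ℕ) ∧ (x.2 : ℕ) < betti K x.1},
          Pp (A x.1.1 x.1.2)
            (fun τ => ∑ j : Fin B, C (x.1.1, x.1.2, j) * A (d + 1 - x.1.1) j τ) Z') +
        ∑ t : Fin m', Pp (fun σ => ∑ i : Fin (betti K q), X t i * A q i σ)
          (fun τ => ∑ i : Fin (betti K q), Y t i * A q i τ) Z' := Fintype.sum_sum_type _
    rw [hsT]
    set M := ∑ t : Fin m', Pp (fun σ => ∑ i : Fin (betti K q), X t i * A q i σ)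
      (fun τ => ∑ i : Fin (betti K q), Y t i * A q i τ) Z' with hM
    have hleft : (∑ x : {x : Fin (d + 2) × Fin B // d + 1 < 2 * (x.1 : ℕ) ∧
        (x.2 : ℕ) < betti K x.1}, Pp (A x.1.1 x.1.2)
            (fun τ => ∑ j : Fin B, C (x.1.1, x.1.2, j) * A (d + 1 - x.1.1) j τ) Z') =
        ∑ p : Fin (d + 2), ∑ i : Fin B, if d + 1 < 2 * (p : ℕ) ∧ (i : ℕ) < betti K p then
          Pp (A p i) (fun τ => ∑ j : Fin B, C (p, i, j) * A (d + 1 - p) j τ) Z' else 0 := by
      rw [← Fintype.sum_prod_type (f := fun x : Fin (d + 2) × Fin B =>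
        if d + 1 < 2 * (x.1 : ℕ) ∧ (x.2 : ℕ) < betti K x.1 then
          Pp (A x.1 x.2) (fun τ => ∑ j : Fin B, C (x.1, x.2, j) * A (d + 1 - x.1) j τ) Z'
          else 0), ← sum_filter]
      symm
      exact Finset.sum_subtype _ (fun x => by simp) (fun x : Fin (d + 2) × Fin B =>
        Pp (A x.1 x.2) (fun τ => ∑ j : Fin B, C (x.1, x.2, j) * A (d + 1 - x.1) j τ) Z')
    have hM0 : d + 1 ≠ 2 * q → M = 0 := by
      intro h
      rw [hM]
      apply sum_eq_zero
      intro t
      exact absurd (hm2' t) h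
    have hMsum : M = ∑ p : Fin (d + 2), if p = qq ∧ d + 1 = 2 * q then M else 0 := by
      by_cases h : d + 1 = 2 * q
      · rw [Finset.sum_eq_single qq]
        · rw [if_pos ⟨rfl, h⟩]
        · intro p _ hp
          rw [if_neg (fun hh => hp hh.1)]
        · intro hh
          exact absurd (mem_univ _) hh
      · rw [hM0 h]
        symm
        apply sum_eq_zero
        intro p _
        split_ifs <;> rfl
    rw [hleft, hMsum, ← sum_add_distrib]
    refine sum_congr rfl fun p _ => ?_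
    rw [Fintype.sum_prod_type]
    rcases lt_trichotomy (d + 1) (2 * (p : ℕ)) with hp | hp | hp
    · have hne : ¬ (p = qq ∧ d + 1 = 2 * q) := by
        rintro ⟨rfl, h⟩
        have : (qq : ℕ) = q := rfl
        omega
      rw [if_neg hne, add_zero]
      refine sum_congr rfl fun i _ => ?_
      by_cases hi : (i : ℕ) < betti K p
      · rw [if_pos ⟨hp, hi⟩, Pp_sum_right]
        exact sum_congr rfl fun j _ => by rw [if_pos hp.le]
      · rw [if_neg (fun h => hi h.2)]
        refine sum_eq_zero fun j _ => ?_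
        simp only
        rw [if_pos hp.le, hA2 _ _ (by omega), Pp_zero_left, mul_zero]
    · have hpq : p = qq := by
        apply Fin.ext
        change (p : ℕ) = q
        omega
      have hdq : d + 1 = 2 * q := by
        have : (p : ℕ) = q := congrArg Fin.val hpq
        omega
      rw [if_pos ⟨hpq, hdq⟩]
      have hz : ∑ i : Fin B, (if d + 1 < 2 * (p : ℕ) ∧ (i : ℕ) < betti K p then
          Pp (A p i) (fun τ => ∑ j : Fin B, C (p, i, j) * A (d + 1 - p) j τ) Z' else 0) = 0 := by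
        apply sum_eq_zero
        intro i _
        rw [if_neg (by omega)]
      rw [hz, zero_add]
      subst hpq
      have hqv : ((qq : Fin (d + 2)) : ℕ) = q := rfl
      have hqs : d + 1 - q = q := by omega
      have hZc := hmem.1
      have hZs := hmem.2.1
      simp only [hqv, hqs, if_pos hdq.le]
      rw [sum_castLE hqB]
      · have e3 : ∀ i : Fin (betti K q), ∑ j : Fin B, C (qq, Fin.castLE hqB i, j) *
            Pp (A q ((Fin.castLE hqB i : Fin B) : ℕ)) (A q j) Z' =
            ∑ j : Fin (betti K q), C (qq, Fin.castLE hqB i, Fin.castLE hqB j) *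
              Pp (A q i) (A q j) Z' := by
          intro i
          rw [sum_castLE hqB]
          · rfl
          · intro j hj
            rw [hA2 q j hj, Pp_zero_right, mul_zero]
        rw [sum_congr rfl fun i _ => e3 i]
        rw [middle (fun i j : Fin (betti K q) => Pp (A q i) (A q j) Z')
          (fun i j => C (qq, Fin.castLE hqB i, Fin.castLE hqB j)) X Y
          (fun i j => Pp_comm hZs _ _) (fun i => Pp_self (by omega) hZc hZs _) (hm3 hdq), hM]
        refine sum_congr rfl fun t _ => ?_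
        rw [Pp_sum_left]
        exact sum_congr rfl fun i _ => by rw [Pp_sum_right]
      · intro i hi
        refine sum_eq_zero fun j _ => ?_
        rw [hA2 q i hi, Pp_zero_left, mul_zero]
    · have hne : ¬ (p = qq ∧ d + 1 = 2 * q) := by
        rintro ⟨rfl, h⟩
        have : (qq : ℕ) = q := rfl
        omega
      rw [if_neg hne, add_zero]
      refine sum_congr rfl fun i _ => ?_
      rw [if_neg (by omega)]
      refine sum_eq_zero fun j _ => ?_
      simp only
      rw [if_neg (by omega), mul_zero]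
  · intro r hr
    unfold nf
    rw [card_comp e (fun t => bT t = r), card_comp e (fun t => d + 1 - bT t = r)]
    rw [card_filter, card_filter]
    have s1 : (∑ t : T, if bT t = r then 1 else 0) =
        (∑ x : {x : Fin (d + 2) × Fin B // d + 1 < 2 * (x.1 : ℕ) ∧ (x.2 : ℕ) < betti K x.1},
          if (x.1.1 : ℕ) = r then 1 else 0) + ∑ _t : Fin m', if q = r then 1 else 0 :=
      Fintype.sum_sum_type _
    have s2 : (∑ t : T, if d + 1 - bT t = r then 1 else 0) =
        (∑ x : {x : Fin (d + 2) × Fin B // d + 1 < 2 * (x.1 : ℕ) ∧ (x.2 : ℕ) < betti K x.1},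
          if d + 1 - (x.1.1 : ℕ) = r then 1 else 0) + ∑ _t : Fin m', if d + 1 - q = r then 1 else 0 :=
      Fintype.sum_sum_type _
    have s3 : (∑ x : {x : Fin (d + 2) × Fin B // d + 1 < 2 * (x.1 : ℕ) ∧ (x.2 : ℕ) < betti K x.1},
          if d + 1 - (x.1.1 : ℕ) = r then 1 else 0) = 0 := by
      apply sum_eq_zero
      intro x _
      have := x.2.1
      rw [if_neg (by omega)]
    rw [s1, s2, s3]
    rcases Nat.lt_or_ge (d + 1) (2 * r) with h | h
    · have s4 : ∑ _t : Fin m', (if q = r then 1 else 0) = 0 := by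
        apply sum_eq_zero
        intro t _
        have := hm2' t
        rw [if_neg (by omega)]
      have s5 : ∑ _t : Fin m', (if d + 1 - q = r then 1 else 0) = 0 := by
        apply sum_eq_zero
        intro t _
        have := hm2' t
        rw [if_neg (by omega)]
      rw [s4, s5, ← card_filter]
      simp only [add_zero]
      calc (univ.filter (fun x : {x : Fin (d + 2) × Fin B // d + 1 < 2 * (x.1 : ℕ) ∧
              (x.2 : ℕ) < betti K x.1} => (x.1.1 : ℕ) = r)).card
          ≤ (range (betti K r)).card := by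
            apply card_le_card_of_injOn (fun x => (x.1.2 : ℕ))
            · intro x hx
              rw [Finset.mem_coe, mem_filter] at hx
              have h6 := x.2.2
              rw [hx.2] at h6
              exact Finset.mem_coe.2 (mem_range.2 h6)
            · intro x hx y hy hxy
              rw [Finset.mem_coe, mem_filter] at hx hy
              apply Subtype.ext
              apply Prod.ext
              · apply Fin.ext
                rw [hx.2, hy.2]
              · exact Fin.ext hxy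
        _ = betti K r := card_range _
    · have h7 : d + 1 = 2 * r := by omega
      have h8 : q = r := by omega
      have s6 : (∑ x : {x : Fin (d + 2) × Fin B // d + 1 < 2 * (x.1 : ℕ) ∧
          (x.2 : ℕ) < betti K x.1}, if (x.1.1 : ℕ) = r then 1 else 0) = 0 := by
        apply sum_eq_zero
        intro x _
        have := x.2.1
        rw [if_neg (by omega)]
      rw [s6, if_pos h8, if_pos (by omega)]
      simp only [sum_const, card_univ, Fintype.card_fin, smul_eq_mul, mul_one, zero_add]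
      rw [← h8]
      omega


end Pool.Agent.H95.KR
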